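import Pool.Agent.Helper41.Girth4.Stmts

/-!
# Packet I1: non-backtracking walks with the same ends are equal below the girth
-/

namespace Pool.Agent.Helper11.Girth4

open SimpleGraph Pool.Agent.Helper41.Girth4

universe u

/-- A vertex-non-backtracking walk has no two equal consecutive edges. -/
theorem isChain_edges {V : Type u} {G : SimpleGraph V} {x y : V} (p : G.Walk x y)
    (hp : ∀ i, i + 2 ≤ p.length → p.getVert i ≠ p.getVert (i + 2)) :
    List.IsChain (· ≠ ·) p.edges := by
  rw [List.isChain_iff_getElem]
  intro i hi
  have hlen : i + 2 ≤ p.length := by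
    rw [Walk.length_edges] at hi
    omega
  rw [Walk.getElem_edges, Walk.getElem_edges]
  intro h
  have hne := hp i hlen
  rw [Sym2.eq_iff] at h
  rcases h with ⟨h1, h2⟩ | ⟨h1, h2⟩
  · have hadj := p.adj_getVert_succ (i := i) (by omega)
    rw [h1] at hadj
    exact hadj.ne rfl
  · exact hne h1

theorem stmtNB : StmtNB.{u} := by
  classical
  intro V G R hR x y p q hp hq hpn hqn
  set H : SimpleGraph V := SimpleGraph.fromEdgeSet {e | e ∈ p.edges ∨ e ∈ q.edges} with hH
  have hsubE : ∀ e ∈ H.edgeSet, e ∈ p.edges ∨ e ∈ q.edges := by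
    intro e he
    rw [hH, SimpleGraph.edgeSet_fromEdgeSet] at he
    exact he.1
  have hmemE : ∀ e, (e ∈ p.edges ∨ e ∈ q.edges) → e ∈ H.edgeSet := by
    intro e he
    rw [hH, SimpleGraph.edgeSet_fromEdgeSet]
    refine ⟨he, ?_⟩
    have heG : e ∈ G.edgeSet := by
      rcases he with he | he
      · exact p.edges_subset_edgeSet he
      · exact q.edges_subset_edgeSet he
    exact G.not_isDiag_of_mem_edgeSet heG
  have hle : H ≤ G := by
    intro a b hab
    have := hsubE s(a, b) hab
    rcases this with h | h
    · exact p.adj_of_mem_edges h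
    · exact q.adj_of_mem_edges h
  have hac : H.IsAcyclic := by
    intro v c hc
    have hc' : (c.mapLe hle).IsCycle := hc.mapLe hle
    have h1 : G.egirth ≤ (c.mapLe hle).length := G.egirth_le_length hc'
    have hlen : (c.mapLe hle).length = c.length := by simp [Walk.mapLe]
    rw [hlen] at h1
    have h2 : c.length ≤ 2 * R := by
      rw [← Walk.length_edges, ← List.toFinset_card_of_nodup hc.edges_nodup]
      have hsub : c.edges.toFinset ⊆ (p.edges ++ q.edges).toFinset := by
        intro e he
        rw [List.mem_toFinset] at he ⊢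
        rw [List.mem_append]
        exact hsubE e (c.edges_subset_edgeSet he)
      calc c.edges.toFinset.card ≤ (p.edges ++ q.edges).toFinset.card := Finset.card_le_card hsub
        _ ≤ (p.edges ++ q.edges).length := List.toFinset_card_le _
        _ = p.length + q.length := by simp
        _ ≤ 2 * R := by omega
    have h3 : ((2 * R : ℕ) : ℕ∞) < (c.length : ℕ∞) := lt_of_lt_of_le hR h1
    have h4 : 2 * R < c.length := by exact_mod_cast h3
    omega
  have hpH : ∀ e ∈ p.edges, e ∈ H.edgeSet := fun e he => hmemE e (Or.inl he)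
  have hqH : ∀ e ∈ q.edges, e ∈ H.edgeSet := fun e he => hmemE e (Or.inr he)
  have hpP : (p.transfer H hpH).IsPath := by
    rw [hac.isPath_iff_isChain, Walk.edges_transfer]
    exact isChain_edges p hpn
  have hqP : (q.transfer H hqH).IsPath := by
    rw [hac.isPath_iff_isChain, Walk.edges_transfer]
    exact isChain_edges q hqn
  have heq : p.transfer H hpH = q.transfer H hqH := by
    have := hac.path_unique ⟨_, hpP⟩ ⟨_, hqP⟩
    exact Subtype.ext_iff.mp this
  apply Walk.ext_support
  rw [← Walk.support_transfer p hpH, ← Walk.support_transfer q hqH, heq]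

end Pool.Agent.Helper11.Girth4
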